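import Pool.Agent.Q26.DS.B
import Pool.Agent.Results.MP_122e00_nt.SparseRandomShifts

/-!
# Correlations of the divisor functions for the shifts in windows around almost all elements of automatic sets

Let `r ≥ 2`. For every automatic set that is not sparse (its number of elements below `N` is not bounded by a power of
`log N`) and almost all its elements `v < N`, the asymptotic formula for `D_r(x; h)` holds for ALL `x ≤ N` and ALL shifts
`h ≠ 0` in the window of radius `log ^ A N` around `c + κ v`, with an error `N / log ^ U N`.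

The definitions of `D`, `main`, `G`, `ram`, `κ`, `𝔖`, `Density` are those of the starting file `PowerSavingShifts`, and
`Asymp` is that of the starting file `SparseRandomShifts`.
-/

set_option autoImplicit false

namespace Pool.Agent.Results.MP_122e00_nt.AutomaticShifts

open Finset Polynomial
open Pool.Agent.Results.MP_122e00_nt.PowerSavingShifts (D e ram κ 𝔖 Density G main exists_P)
open Pool.Agent.Results.MP_122e00_nt.SparseRandomShifts (Asymp)

open Classical in
/-- The elements `v < N` of the automatic set given by the base `b` and the automaton `M`: the integers whose base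
`b` digits are accepted by `M`. -/
noncomputable def aut {σ : Type} (b : ℕ) (M : DFA ℕ σ) (N : ℕ) : Finset ℕ :=
  (range N).filter fun v => Nat.digits b v ∈ M.accepts

/-- ALL integers `h ≠ 0` at a distance of at most `log ^ A N` from `y` satisfy the asymptotic formula for all `x ≤ N`, with the
error `N / log ^ U N`. -/
def Window (r N : ℕ) (P : ℕ → ℝ[X]) (T : ℤ → ℝ[X]) (A U : ℕ) (η : ℝ) (y : ℤ) : Prop :=
  ∀ h : ℤ, |(h : ℝ) - (y : ℝ)| ≤ Real.log N ^ A → h ≠ 0 → Asymp r N P T (N / Real.log N ^ U) η h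

open Classical in
/-- **Divisor correlations for shifts around almost all elements of automatic sets.** Let `r ≥ 2`. There are polynomials
`P_q` (`q ≥ 1`) and `T_h` (`h ≠ 0`) with the following properties.

(0) As in the starting file: `P_q` is the density of `d_r(n) e(b n / q)`, `(b, q) = 1`, with a power saving; for `h ≠ 0` the
series `G_h(u, v) = ∑ c_q(h) P_q(u) P_q(v)` converges absolutely, `y T_h(log y)` has the derivative `G_h(log y, log y)`, and
`T_h` has degree `2 r - 2` and leading coefficient `𝔖_r(h) / ((r - 1)!) ^ 2`.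

(1) Let `b ≥ 2`, and let `M` be any automaton such that the automatic set `aut b M` is not sparse: for every `k` it has more
than `log ^ k N` elements below `N` for infinitely many `N`. Let `k₀ ≠ 0`, `B`, `A`, `U` and `0 < η ≤ 1` be fixed, let `N` be
large and let `c` be an arbitrary integer with `|c| ≤ B N`. Then for all elements `v < N` of the automatic set, with at most
`#(aut b M N) / log ^ U N` exceptions, ALL integers `h ≠ 0` with `|h - (c + k₀ v)| ≤ log ^ A N` satisfy: for all `x ≤ N`,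
`D_r(x; h)` is the main term up to `N / log ^ U N` and, if `|h| ≤ N ^ (1 - η)`, it is `x T_h(log x)` up to
`N / log ^ U N + N ^ (1 - η / 4)`. -/

theorem result (r : ℕ) (hr : 2 ≤ r) : ∃ (P : ℕ → ℝ[X]) (T : ℤ → ℝ[X]),
    (Density r P ∧ (∀ q, 1 ≤ q → (P q).natDegree = r - 1 ∧ (P q).leadingCoeff = κ (r - 1) q / ((r - 1).factorial : ℝ)) ∧
      ∀ ε : ℝ, 0 < ε → ∃ C : ℝ, ∀ q i : ℕ, 1 ≤ q → |(P q).coeff i| ≤ C * (q : ℝ) ^ (ε - 1)) ∧
    (∀ h : ℤ, h ≠ 0 → (∀ u v : ℝ, Summable (fun q : ℕ => (ram (q + 1) h : ℝ) * ((P (q + 1)).eval u * (P (q + 1)).eval v))) ∧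
      (∀ u : ℝ, (T h).eval u + (derivative (T h)).eval u = G P h u u) ∧
      (T h).natDegree = 2 * r - 2 ∧ (T h).leadingCoeff = 𝔖 r h / ((r - 1).factorial : ℝ) ^ 2) ∧
    ∀ (σ : Type) [Finite σ] (b : ℕ), 2 ≤ b → ∀ M : DFA ℕ σ,
      (∀ k : ℕ, ∃ᶠ N : ℕ in Filter.atTop, Real.log N ^ k < ((aut b M N).card : ℝ)) →
      ∀ k₀ : ℤ, k₀ ≠ 0 → ∀ (B A U : ℕ) (η : ℝ), 0 < η → η ≤ 1 → ∃ N₀ : ℕ, ∀ N : ℕ, N₀ ≤ N → ∀ c : ℤ, |c| ≤ (B : ℤ) * N →
        (((aut b M N).filter fun v : ℕ => ¬ Window r N P T A U η (c + k₀ * v)).card : ℝ) ≤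
          ((aut b M N).card : ℝ) / Real.log N ^ U := by
  obtain ⟨t, rfl⟩ : ∃ t, r = t + 2 := ⟨r - 2, by omega⟩
  obtain ⟨P, hP, hlead, hdens⟩ := exists_P t
  obtain ⟨p1, p2⟩ := Pool.Agent.Y958.SP.props t P hP hlead hdens
  refine ⟨P, Pool.Agent.TH212.PS.Th t P, p1, p2, ?_⟩
  obtain ⟨θ, hθ, _, C, h1⟩ := Pool.Agent.Y958.SP.crit Pool.Agent.Y641.SP.sm Pool.Agent.Y434.SP.t_M4 Pool.Agent.Y889.SP.m2
    Pool.Agent.Results.MP_122e00_nt.SparseRandomShifts.incd Pool.Agent.Y108.SP.incm t P hP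
  intro σ _ b hb M hM k₀ hk₀ B A U η hη hη1
  obtain ⟨N₀, h2⟩ := Pool.Agent.Q26.DS.au_main t P θ hθ C h1 b hb M (by unfold aut at hM; exact hM) k₀ hk₀ B A U η hη hη1
  refine ⟨N₀, fun N hN c hc => ?_⟩
  have h3 := h2 N hN c hc
  unfold aut
  refine le_trans ?_ h3
  apply Nat.cast_le.2
  rw [filter_filter]
  apply card_le_card
  intro v hv
  rw [mem_filter] at hv ⊢
  refine ⟨hv.1, hv.2.1, ?_⟩
  have h4 := hv.2.2
  unfold Window at h4
  push Not at h4
  obtain ⟨h, g1, g2, g3⟩ := h4
  exact ⟨h, g1, g2, fun hg => g3 (Pool.Agent.Y958.SP.asymp_of t N P hP _ η h g2 hg)⟩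

end Pool.Agent.Results.MP_122e00_nt.AutomaticShifts
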