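import Pool.Agent.Results.MP_122e00_nt.PowerSavingShifts
import Pool.Agent.Q44.Appr

/-!
# Correlations of the divisor functions, with a power saving, for the shifts given by good rational approximations

Let `r ≥ 2` and let `P_q`, `T_h` be the polynomials of the conjectural main terms.  There is `0 < θ ≤ 1` such that
for `0 < η ≤ θ` the following holds for almost every real number `α`, for all integers `(u, v) ≠ (0, 0)` and for all
but finitely many convergents `a / b` of the continued fraction of `α`: both shifts `h = ± (u a + v b)` satisfy for ALL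
natural numbers `x ≤ |h| ^ (1 + θ / 2)` the asymptotic formula `D_r(x; h) = ∑ G_h(log n, log (n + h)) + O(X ^ (1 - θ))`,
`X = max (x, |h|)`, and, if `|h| ≤ x ^ (1 - η)`, `D_r(x; h) = x T_h(log x) + O(x ^ (1 - η / 8))`, with implied constants
`2`.  The real numbers without this property have Hausdorff dimension at most `1 - θ / 4`.  The same for approximations
of other qualities, for the points of `ℝ ^ d`, and for the values of polynomials at the denominator and the numerators.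
-/

set_option autoImplicit false

namespace Pool.Agent.Results.MP_122e00_nt.GoodApproximations

open Finset Polynomial
open Pool.Agent.Q44.CF (AtApproximations at_of)
open Pool.Agent.Q21.DW (PS)
open Pool.Agent.Results.MP_122e00_nt.PowerSavingShifts (D Density G main Asymp κ 𝔖 ram energy)

/-- Both shifts `h = q` and `h = -q` satisfy for ALL natural numbers `x ≤ q ^ (1 + θ / 2)`: `D_r(x; h)` is the main
term up to `2 max (x, q) ^ (1 - θ)` and, if `q ≤ x ^ (1 - η)`, it is `x T_h(log x)` up to `2 x ^ (1 - η / 8)`. -/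
def Good (r : ℕ) (P : ℕ → ℝ[X]) (T : ℤ → ℝ[X]) (θ η : ℝ) (q : ℕ) : Prop :=
  ∀ h : ℤ, h.natAbs = q → ∀ x : ℕ, (x : ℝ) ≤ (q : ℝ) ^ (1 + θ / 2) →
    |D r x h - main P x h| ≤ 2 * (max (x : ℝ) q) ^ (1 - θ) ∧
      ((q : ℝ) ≤ (x : ℝ) ^ (1 - η) → |D r x h - x * (T h).eval (Real.log x)| ≤ 2 * (x : ℝ) ^ (1 - η / 8))

/-- both shifts satisfy the formulas of the starting file for `x ≤ M` -/
def Both (r M : ℕ) (P : ℕ → ℝ[X]) (T : ℤ → ℝ[X]) (θ η : ℝ) (q : ℕ) : Prop :=
  Asymp r M P T θ η q ∧ Asymp r M P T θ η (-q)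

/-- the theorem of the starting file for families of integers of size at most `4 N`, energy of order one -/
def Fam (r : ℕ) (P : ℕ → ℝ[X]) (T : ℤ → ℝ[X]) (θ η : ℝ) (N₀ : ℕ) : Prop :=
  ∀ N : ℕ, N₀ ≤ N → ∀ (ι : Type) [Fintype ι] (v : ι → ℤ), (∀ i, |v i| ≤ 4 * N) →
    (energy 1 v : ℝ) * N ≤ (N : ℝ) ^ θ * (Fintype.card ι : ℝ) ^ (2 * 1) →
    ∀ S : Finset ι, (∀ i ∈ S, v i ≠ 0 ∧ ¬ Asymp r N P T θ η (v i)) → (S.card : ℝ) ≤ (N : ℝ) ^ (-θ) * Fintype.card ι

/-- the number of the exceptional shifts -/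
lemma count {r : ℕ} {P : ℕ → ℝ[X]} {T : ℤ → ℝ[X]} {θ η : ℝ} (hθ : 0 < θ) {N₀ : ℕ} (hF : Fam r P T θ η N₀)
    (M : ℕ) (hM : N₀ ≤ M) (hM2 : 2 ≤ M) (S : Finset ℤ)
    (hS : ∀ h ∈ S, h ≠ 0 ∧ |h| ≤ 4 * M ∧ ¬ Asymp r M P T θ η h) : (S.card : ℝ) ≤ (M : ℝ) ^ (1 - θ) := by
  classical
  by_contra hlt
  rw [not_le] at hlt
  have hM2R : (2 : ℝ) ≤ M := by exact_mod_cast hM2
  have hM0 : (0 : ℝ) < M := by linarith
  have hc0 : (0 : ℝ) < S.card := lt_trans (by positivity) hlt
  have hcard : Fintype.card {x // x ∈ S} = S.card := Fintype.card_coe S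
  have hE : energy 1 (fun i : {x // x ∈ S} => (i : ℤ)) ≤ S.card := by
    unfold energy
    rw [← hcard, ← Nat.card_eq_fintype_card]
    refine Nat.card_le_card_of_injective (fun q => q.1.1 0) ?_
    intro q q' hqq
    have h1 := q.2
    have h2 := q'.2
    rw [Fin.sum_univ_one, Fin.sum_univ_one] at h1 h2
    change ((q.1.1 0 : {x // x ∈ S}) : ℤ) = ((q.1.2 0 : {x // x ∈ S}) : ℤ) at h1
    change ((q'.1.1 0 : {x // x ∈ S}) : ℤ) = ((q'.1.2 0 : {x // x ∈ S}) : ℤ) at h2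
    have h3 : q.1.1 0 = q'.1.1 0 := hqq
    have h4 : q.1.2 0 = q'.1.2 0 := by
      apply Subtype.ext
      rw [← h1, ← h2, h3]
    apply Subtype.ext
    apply Prod.ext
    · funext i
      rw [Subsingleton.elim i 0]
      exact h3
    · funext i
      rw [Subsingleton.elim i 0]
      exact h4
  have h5 := hF M hM {x // x ∈ S} (fun i => (i : ℤ)) (fun i => (hS i i.2).2.1) (by
    rw [hcard]
    have h6 : (energy 1 (fun i : {x // x ∈ S} => (i : ℤ)) : ℝ) ≤ S.card := by exact_mod_cast hE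
    have h7 : (M : ℝ) ≤ (M : ℝ) ^ θ * S.card := by
      calc (M : ℝ) = (M : ℝ) ^ θ * (M : ℝ) ^ (1 - θ) := by
            rw [← Real.rpow_add hM0]
            simp
        _ ≤ (M : ℝ) ^ θ * S.card := mul_le_mul_of_nonneg_left hlt.le (by positivity)
    calc (energy 1 (fun i : {x // x ∈ S} => (i : ℤ)) : ℝ) * M ≤ S.card * ((M : ℝ) ^ θ * S.card) := by
          apply mul_le_mul h6 h7 hM0.le (by positivity)
      _ = (M : ℝ) ^ θ * (S.card : ℝ) ^ (2 * 1) := by ring)
    univ (fun i _ => ⟨(hS i i.2).1, (hS i i.2).2.2⟩)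
  rw [card_univ, hcard] at h5
  have h8 : (M : ℝ) ^ (-θ) < 1 := Real.rpow_lt_one_of_one_lt_of_neg (by linarith) (by linarith)
  nlinarith

open Classical in
/-- the number of the `q ≤ X` for which one of the shifts `q`, `-q` is exceptional -/
lemma count' {r : ℕ} {P : ℕ → ℝ[X]} {T : ℤ → ℝ[X]} {θ η : ℝ} (hθ : 0 < θ) {N₀ : ℕ} (hF : Fam r P T θ η N₀)
    (M : ℕ) (hM : N₀ ≤ M) (hM2 : 2 ≤ M) (X : ℕ) (hX : X ≤ 4 * M) :
    (((Icc 1 X).filter (fun q => ¬ Both r M P T θ η q)).card : ℝ) ≤ (M : ℝ) ^ (1 - θ) := by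
  set f : ℕ → ℤ := fun q => if Asymp r M P T θ η q then -(q : ℤ) else q with hf
  have hfa : ∀ q : ℕ, |f q| = q := by
    intro q
    rw [hf]
    by_cases h : Asymp r M P T θ η q
    · simp only [if_pos h, abs_neg, Nat.abs_cast]
    · simp only [if_neg h, Nat.abs_cast]
  have hinj : Function.Injective f := by
    intro q q' h
    have h1 := hfa q
    rw [h, hfa q'] at h1
    exact_mod_cast h1.symm
  rw [← card_image_of_injective _ hinj]
  apply count hθ hF M hM hM2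
  intro h hh
  obtain ⟨q, hq, rfl⟩ := mem_image.1 hh
  rw [mem_filter, mem_Icc] at hq
  refine ⟨?_, ?_, ?_⟩
  · intro h0
    have h1 := hfa q
    rw [h0, abs_zero] at h1
    have : q = 0 := by exact_mod_cast h1.symm
    omega
  · rw [hfa q]
    exact_mod_cast hq.1.2.trans hX
  · intro hA
    by_cases h : Asymp r M P T θ η q
    · have e1 : f q = -(q : ℤ) := by rw [hf]; simp only [if_pos h]
      rw [e1] at hA
      exact hq.2 ⟨h, hA⟩
    · have e1 : f q = q := by rw [hf]; simp only [if_neg h]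
      rw [e1] at hA
      exact h hA

/-- the numbers which are exceptional at some power of two -/
def Bad (r : ℕ) (P : ℕ → ℝ[X]) (T : ℤ → ℝ[X]) (θ η : ℝ) (q : ℕ) : Prop :=
  q = 0 ∨ ∃ j : ℕ, q < 2 ^ j ∧ (2 : ℝ) ^ j ≤ 2 * (q : ℝ) ^ (1 + θ / 2) ∧ ¬ Both r (2 ^ j) P T θ η q

lemma two_rpow_le {y s : ℝ} (hy : 0 ≤ y) (hs1 : s ≤ 1) : (2 * y) ^ s ≤ 2 * y ^ s := by
  rw [Real.mul_rpow (by norm_num) hy]
  refine mul_le_mul_of_nonneg_right ?_ (Real.rpow_nonneg hy _)
  calc (2 : ℝ) ^ s ≤ 2 ^ (1 : ℝ) := Real.rpow_le_rpow_of_exponent_le (by norm_num) hs1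
    _ = 2 := Real.rpow_one 2

lemma good_of {r : ℕ} {P : ℕ → ℝ[X]} {T : ℤ → ℝ[X]} {θ η : ℝ} (hθ : 0 < θ) (hθ1 : θ ≤ 1) (hη : 0 < η)
    (hηθ : η ≤ θ) {q : ℕ} (hq : ¬ Bad r P T θ η q) : Good r P T θ η q := by
  unfold Bad at hq
  push Not at hq
  obtain ⟨hq0, hb⟩ := hq
  intro h hh x hx
  have hq1 : (1 : ℝ) ≤ q := by exact_mod_cast (by omega : 1 ≤ q)
  set m : ℕ := max x q with hm
  have hm1 : 1 ≤ m := le_trans (by omega : 1 ≤ q) (le_max_right _ _)
  have hmR : (m : ℝ) = max (x : ℝ) q := by rw [hm]; push_cast; rfl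
  have hj1 : m < 2 ^ Nat.size m := Nat.lt_size_self m
  have hj2 : 2 ^ Nat.size m ≤ 2 * m := by
    have h1 : 0 < Nat.size m := Nat.size_pos.2 hm1
    have h2 : 2 ^ (Nat.size m - 1) ≤ m := Nat.lt_size.1 (by omega)
    calc 2 ^ Nat.size m = 2 * 2 ^ (Nat.size m - 1) := by
          rw [← pow_succ']
          congr 1
          omega
      _ ≤ 2 * m := Nat.mul_le_mul_left _ h2
  have hqm : q ≤ m := le_max_right _ _
  have hxm : x ≤ m := le_max_left _ _
  have hj2R : ((2 ^ Nat.size m : ℕ) : ℝ) ≤ 2 * m := by exact_mod_cast hj2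
  have hqpow : (q : ℝ) ≤ (q : ℝ) ^ (1 + θ / 2) := by
    calc (q : ℝ) = (q : ℝ) ^ (1 : ℝ) := (Real.rpow_one _).symm
      _ ≤ _ := Real.rpow_le_rpow_of_exponent_le hq1 (by linarith)
  have hmpow : (m : ℝ) ≤ (q : ℝ) ^ (1 + θ / 2) := by
    rw [hmR]
    exact max_le hx hqpow
  have hB := hb (Nat.size m) (lt_of_le_of_lt hqm hj1) (by
    have : (2 : ℝ) ^ Nat.size m = ((2 ^ Nat.size m : ℕ) : ℝ) := by push_cast; rfl
    rw [this]
    linarith)
  have hA : Asymp r (2 ^ Nat.size m) P T θ η h := by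
    rcases Int.natAbs_eq h with h1 | h1
    · rw [h1, hh]
      exact hB.1
    · rw [h1, hh]
      exact hB.2
  obtain ⟨h1, h2⟩ := hA x (hxm.trans hj1.le)
  have hm0 : (0 : ℝ) ≤ m := Nat.cast_nonneg _
  have hM0 : (0 : ℝ) ≤ ((2 ^ Nat.size m : ℕ) : ℝ) := Nat.cast_nonneg _
  refine ⟨?_, fun hqx => ?_⟩
  · rw [← hmR]
    refine h1.trans ((Real.rpow_le_rpow hM0 hj2R (by linarith)).trans ?_)
    exact two_rpow_le hm0 (by linarith)
  · rcases Nat.eq_zero_or_pos x with rfl | hx0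
    · have e1 : D r 0 h = 0 := by
        unfold D
        simp
      rw [e1]
      simp only [Nat.cast_zero, zero_mul, sub_zero, abs_zero]
      positivity
    · have hx1 : (1 : ℝ) ≤ x := by exact_mod_cast hx0
      have hqx' : (q : ℝ) ≤ x := by
        refine hqx.trans ?_
        calc (x : ℝ) ^ (1 - η) ≤ (x : ℝ) ^ (1 : ℝ) := Real.rpow_le_rpow_of_exponent_le hx1 (by linarith)
          _ = x := Real.rpow_one _
      have hmx : (m : ℝ) = x := by rw [hmR]; exact max_eq_left hqx'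
      have habs : ((|h| : ℤ) : ℝ) = q := by
        rw [Int.abs_eq_natAbs, hh]
        simp
      have h3 := h2 (by
        have h4 : (|(h : ℝ)|) = q := by rw [← Int.cast_abs]; exact habs
        rw [h4]
        refine hqx.trans (Real.rpow_le_rpow (by positivity) ?_ (by linarith))
        exact_mod_cast hxm.trans hj1.le)
      refine h3.trans ((Real.rpow_le_rpow hM0 hj2R (by linarith)).trans ?_)
      rw [hmx]
      exact two_rpow_le (by positivity) (by linarith)

open Classical in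
lemma ps_bad {r : ℕ} {P : ℕ → ℝ[X]} {T : ℤ → ℝ[X]} {θ η : ℝ} (hθ : 0 < θ) (hθ1 : θ ≤ 1) {N₀ : ℕ}
    (hF : Fam r P T θ η N₀) : PS (1 - θ / 2) (Bad r P T θ η) := by
  intro t ht
  set ε : ℝ := t - (1 - θ / 2) with hε
  have hε0 : 0 < ε := by rw [hε]; linarith
  refine ⟨(N₀ + 4) * (2 + 3 / ε), fun N hN => ?_⟩
  have hN1 : (1 : ℝ) ≤ N := by exact_mod_cast hN
  have hN0 : (0 : ℝ) < N := by linarith
  set R : ℝ := 2 * (N : ℝ) ^ (1 + θ / 2) with hR
  have hpow1 : (1 : ℝ) ≤ (N : ℝ) ^ (1 + θ / 2) := Real.one_le_rpow hN1 (by linarith)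
  have hR2 : 2 ≤ R := by rw [hR]; linarith
  have hlog2 : (0 : ℝ) < Real.log 2 := Real.log_pos (by norm_num)
  set L : ℕ := ⌊Real.log R / Real.log 2⌋₊ with hL
  -- the bound for one power of two
  have hone : ∀ j : ℕ, (2 : ℝ) ^ j ≤ R →
      (((Icc 1 (2 ^ j)).filter (fun q => ¬ Both r (2 ^ j) P T θ η q)).card : ℝ) ≤ (N₀ + 4) * (N : ℝ) ^ (1 - θ / 2) := by
    intro j hj
    have hp1 : (1 : ℝ) ≤ (N : ℝ) ^ (1 - θ / 2) := Real.one_le_rpow hN1 (by linarith)
    have hN₀ : (0 : ℝ) ≤ N₀ := Nat.cast_nonneg _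
    by_cases hs : N₀ + 2 ≤ 2 ^ j
    · refine (count' hθ hF (2 ^ j) (by omega) (by omega) (2 ^ j) (by omega)).trans ?_
      have h1 : ((2 ^ j : ℕ) : ℝ) ^ (1 - θ) ≤ R ^ (1 - θ) := by
        refine Real.rpow_le_rpow (Nat.cast_nonneg _) ?_ (by linarith)
        push_cast
        exact hj
      have h2 : R ^ (1 - θ) ≤ 2 * (N : ℝ) ^ (1 - θ / 2) := by
        rw [hR]
        refine (two_rpow_le (by linarith) (by linarith)).trans ?_
        refine mul_le_mul_of_nonneg_left ?_ (by norm_num)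
        rw [← Real.rpow_mul hN0.le]
        exact Real.rpow_le_rpow_of_exponent_le hN1 (by nlinarith)
      refine (h1.trans h2).trans ?_
      refine mul_le_mul_of_nonneg_right ?_ (by linarith)
      linarith
    · have h1 : ((Icc 1 (2 ^ j)).filter (fun q => ¬ Both r (2 ^ j) P T θ η q)).card ≤ 2 ^ j :=
        (card_filter_le _ _).trans (by simp)
      have h2 : (((Icc 1 (2 ^ j)).filter (fun q => ¬ Both r (2 ^ j) P T θ η q)).card : ℝ) ≤ N₀ + 2 := by
        have h3 : ((Icc 1 (2 ^ j)).filter (fun q => ¬ Both r (2 ^ j) P T θ η q)).card ≤ N₀ + 2 := by omega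
        exact_mod_cast h3
      refine h2.trans ?_
      nlinarith
  have hsub : (Icc 1 N).filter (Bad r P T θ η) ⊆
      (range (L + 1)).biUnion (fun j => if (2 : ℝ) ^ j ≤ R then
        (Icc 1 (2 ^ j)).filter (fun q => ¬ Both r (2 ^ j) P T θ η q) else ∅) := by
    intro q hq
    rw [mem_filter, mem_Icc] at hq
    obtain ⟨⟨hq1, hqN⟩, hq2⟩ := hq
    rcases hq2 with rfl | ⟨j, hj1, hj2, hj3⟩
    · omega
    have hqR : (0 : ℝ) < q := by exact_mod_cast hq1
    have hjR : (2 : ℝ) ^ j ≤ R := by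
      refine hj2.trans ?_
      rw [hR]
      refine mul_le_mul_of_nonneg_left ?_ (by norm_num)
      exact Real.rpow_le_rpow hqR.le (by exact_mod_cast hqN) (by linarith)
    rw [mem_biUnion]
    refine ⟨j, ?_, ?_⟩
    · rw [mem_range]
      refine Nat.lt_succ_of_le (Nat.le_floor ?_)
      rw [le_div_iff₀ hlog2]
      have h1 := Real.log_le_log (by positivity) hjR
      rwa [Real.log_pow] at h1
    · rw [if_pos hjR, mem_filter, mem_Icc]
      exact ⟨⟨hq1, hj1.le⟩, hj3⟩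
  have hcard : (((Icc 1 N).filter (Bad r P T θ η)).card : ℝ) ≤
      (L + 1) * ((N₀ + 4) * (N : ℝ) ^ (1 - θ / 2)) := by
    have h1 := (card_le_card hsub).trans card_biUnion_le
    have h2 : (((Icc 1 N).filter (Bad r P T θ η)).card : ℝ) ≤
        ∑ j ∈ range (L + 1), (((if (2 : ℝ) ^ j ≤ R then
          (Icc 1 (2 ^ j)).filter (fun q => ¬ Both r (2 ^ j) P T θ η q) else ∅) : Finset ℕ).card : ℝ) := by
      exact_mod_cast h1
    refine h2.trans ?_
    calc ∑ j ∈ range (L + 1), (((if (2 : ℝ) ^ j ≤ R then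
          (Icc 1 (2 ^ j)).filter (fun q => ¬ Both r (2 ^ j) P T θ η q) else ∅) : Finset ℕ).card : ℝ)
        ≤ ∑ _j ∈ range (L + 1), (N₀ + 4) * (N : ℝ) ^ (1 - θ / 2) := by
          refine sum_le_sum fun j _ => ?_
          split_ifs with hj
          · exact hone j hj
          · simp only [card_empty, Nat.cast_zero]
            positivity
      _ = (L + 1) * ((N₀ + 4) * (N : ℝ) ^ (1 - θ / 2)) := by
          rw [sum_const, card_range, nsmul_eq_mul]
          push_cast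
          ring
  have hLb : (L : ℝ) + 1 ≤ (2 + 3 / ε) * (N : ℝ) ^ ε := by
    have h1 : (L : ℝ) ≤ Real.log R / Real.log 2 :=
      Nat.floor_le (div_nonneg (Real.log_nonneg (by linarith)) hlog2.le)
    have h2 : Real.log R ≤ Real.log 2 + 2 * Real.log N := by
      rw [hR, Real.log_mul (by norm_num) (by positivity), Real.log_rpow hN0]
      have := Real.log_nonneg hN1
      nlinarith
    have h3 : Real.log N ≤ (N : ℝ) ^ ε / ε := Real.log_le_rpow_div hN0.le hε0
    have h4 : (1 : ℝ) ≤ (N : ℝ) ^ ε := Real.one_le_rpow hN1 hε0.le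
    have h5 : Real.log R / Real.log 2 ≤ 1 + 3 * Real.log N := by
      rw [div_le_iff₀ hlog2]
      have h6 : (0.6931471803 : ℝ) < Real.log 2 := Real.log_two_gt_d9
      have := Real.log_nonneg hN1
      nlinarith
    have h7 : 3 * Real.log N ≤ 3 / ε * (N : ℝ) ^ ε := by
      calc 3 * Real.log N ≤ 3 * ((N : ℝ) ^ ε / ε) := by linarith
        _ = 3 / ε * (N : ℝ) ^ ε := by ring
    nlinarith
  refine hcard.trans ?_
  have hp0 : (0 : ℝ) ≤ (N₀ + 4) * (N : ℝ) ^ (1 - θ / 2) := by positivity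
  calc ((L : ℝ) + 1) * ((N₀ + 4) * (N : ℝ) ^ (1 - θ / 2))
      ≤ ((2 + 3 / ε) * (N : ℝ) ^ ε) * ((N₀ + 4) * (N : ℝ) ^ (1 - θ / 2)) :=
        mul_le_mul_of_nonneg_right hLb hp0
    _ = (N₀ + 4) * (2 + 3 / ε) * ((N : ℝ) ^ ε * (N : ℝ) ^ (1 - θ / 2)) := by ring
    _ = (N₀ + 4) * (2 + 3 / ε) * (N : ℝ) ^ t := by
        rw [← Real.rpow_add hN0]
        congr 2
        rw [hε]
        ring

/-- **Theorem.** Let `r ≥ 2`. There are polynomials `P_q` (`q ≥ 1`) and `T_h` (`h ≠ 0`) with the following properties.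

* `P_q` is the density of `d_r(n) e(b n / q)`, `(b, q) = 1`, with a power saving; it has degree `r - 1` and leading
  coefficient `κ_{r - 1}(q) / (r - 1)!`. For `h ≠ 0` the series `G_h(u, v) = ∑ c_q(h) P_q(u) P_q(v)` converges
  absolutely, `T_h(u) + T_h'(u) = G_h(u, u)`, and `T_h` has degree `2 r - 2` and leading coefficient
  `𝔖_r(h) / ((r - 1)!) ^ 2`.
* There is `0 < θ ≤ 1` such that for every `0 < η ≤ θ` the natural numbers `q` given by good rational approximations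
  of real numbers and real points in the sense of `AtApproximations (1 - θ / 2)` are `Good`: both shifts `h = ± q`
  satisfy the asymptotic formulas for ALL `x ≤ q ^ (1 + θ / 2)`, with a power saving. -/
theorem result (r : ℕ) (hr : 2 ≤ r) : ∃ (P : ℕ → ℝ[X]) (T : ℤ → ℝ[X]),
    (Density r P ∧ (∀ q, 1 ≤ q → (P q).natDegree = r - 1 ∧ (P q).leadingCoeff = κ (r - 1) q / ((r - 1).factorial : ℝ))) ∧
    (∀ h : ℤ, h ≠ 0 → (∀ u v : ℝ, Summable (fun q : ℕ => (ram (q + 1) h : ℝ) * ((P (q + 1)).eval u * (P (q + 1)).eval v))) ∧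
      (∀ u : ℝ, (T h).eval u + (derivative (T h)).eval u = G P h u u) ∧
      (T h).natDegree = 2 * r - 2 ∧ (T h).leadingCoeff = 𝔖 r h / ((r - 1).factorial : ℝ) ^ 2) ∧
    ∃ θ : ℝ, 0 < θ ∧ θ ≤ 1 ∧ ∀ η : ℝ, 0 < η → η ≤ θ → AtApproximations (1 - θ / 2) (Good r P T θ η) := by
  classical
  obtain ⟨P, T, h0, h1, h2, -⟩ := Pool.Agent.Results.MP_122e00_nt.PowerSavingShifts.result r hr
  obtain ⟨θ, hθ, h3⟩ := h2 1 4
  refine ⟨P, T, ⟨h0.1, h0.2.1⟩, h1, min θ 1, lt_min hθ one_pos, min_le_right _ _, fun η hη hηθ => ?_⟩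
  have hθ' : 0 < min θ 1 := lt_min hθ one_pos
  have hmin : min θ 1 ≤ θ := min_le_left _ _
  obtain ⟨N₀, h4⟩ := h3 η hη (hηθ.trans hmin)
  have hFam : Fam r P T (min θ 1) η (N₀ + 1) := by
    intro N hN ι _ v hv hE S hS
    have hN1 : (1 : ℝ) ≤ N := by exact_mod_cast (by omega : 1 ≤ N)
    have h5 := h4 N (by omega) ι v (by exact_mod_cast hv) (hE.trans
      (mul_le_mul_of_nonneg_right (Real.rpow_le_rpow_of_exponent_le hN1 hmin) (by positivity)))
    have h6 : (S.card : ℝ) ≤ ((univ.filter (fun i : ι => v i ≠ 0 ∧ ¬ Asymp r N P T θ η (v i))).card : ℝ) := by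
      apply Nat.cast_le.2
      apply card_le_card
      intro i hi
      rw [mem_filter]
      refine ⟨mem_univ _, (hS i hi).1, fun hA => (hS i hi).2 fun x hx => ?_⟩
      obtain ⟨h7, h8⟩ := hA x hx
      exact ⟨h7.trans (Real.rpow_le_rpow_of_exponent_le hN1 (by linarith)), h8⟩
    refine h6.trans (h5.trans ?_)
    exact mul_le_mul_of_nonneg_right (Real.rpow_le_rpow_of_exponent_le hN1 (by linarith)) (Nat.cast_nonneg _)
  exact at_of (B := Bad r P T (min θ 1) η) (by have := min_le_right θ 1; linarith)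
    (ps_bad hθ' (min_le_right _ _) hFam)
    (fun q hq => by
      by_contra hb
      exact hq (good_of hθ' (min_le_right _ _) hη hηθ hb))

end Pool.Agent.Results.MP_122e00_nt.GoodApproximations
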