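import Pool.Agent.Results.MP_122e00_nt.PowerSavingShifts
import Pool.Agent.Q56.TF.Pow

/-!
# Correlations of the divisor functions, with a power saving, for ALL shifts in windows of power length around almost
all members of a real sequence

The shifts are arbitrary integers `h ≠ 0` with `|h - g m| ≤ N ^ δ`, for almost all `m ≤ x`, where `g 1, ..., g x` is an
arbitrary family of real numbers of nearly minimal energy; for instance the (real) values `β + κ₀ f m` of a polynomial `f`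
with integer coefficients, with arbitrary real `κ₀ ≠ 0` and `β`, or of a generalised polynomial `f t = ∑ w_y t ^ y` whose
largest exponent is greater than `1` and not an integer (`f t = t ^ e`: the sequences of Piatetski-Shapiro).

From Mathlib: `Polynomial ℤ`, `Polynomial ℝ`, `f.eval`: polynomials and their values. The theorem on families of integers
is from the starting files (`Pool.Agent.Results.MP_122e00_nt.PowerSavingShifts`).
-/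

set_option autoImplicit false

namespace Pool.Agent.Results.MP_122e00_nt.PowerWindows

open Finset Polynomial

/-- `d_r(n)`: the number of the ordered `r`-tuples of positive integers with product `n` (and `d_r(0) = 0`) -/
def d (r n : ℕ) : ℕ := ((ArithmeticFunction.zeta : ArithmeticFunction ℕ) ^ r) n

/-- `D_r(x; h)`: the sum of `d_r(n) d_r(n + h)` over `1 ≤ n ≤ x`, with `d_r(m) = 0` for `m ≤ 0` -/
noncomputable def D (r x : ℕ) (h : ℤ) : ℝ := ∑ n ∈ Icc 1 x, (d r n : ℝ) * d r ((n : ℤ) + h).toNat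

/-- `e(t) = exp(2 π i t)` -/
noncomputable def e (t : ℝ) : ℂ := Complex.exp (2 * Real.pi * Complex.I * t)

/-- The Ramanujan sum `c_q(h)`: the sum of `μ(q / g) g` over the common divisors `g` of `q` and `h`. -/
def ram (q : ℕ) (h : ℤ) : ℤ := ∑ g ∈ q.divisors.filter (fun g : ℕ => (g : ℤ) ∣ h), ArithmeticFunction.moebius (q / g) * g

/-- `κ_s(q)`: the proportion of the `s`-tuples of residues `0 ≤ a < q` whose product is divisible by `q` -/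
noncomputable def κ (s q : ℕ) : ℝ := (Nat.card {a : Fin s → Fin q // q ∣ ∏ i, (a i : ℕ)} : ℝ) / (q : ℝ) ^ s

/-- The singular series `𝔖_r(h)`: the sum of `κ_{r - 1}(q) ^ 2 c_q(h)` over the `q ≥ 1`. -/
noncomputable def 𝔖 (r : ℕ) (h : ℤ) : ℝ := ∑' q : ℕ, κ (r - 1) (q + 1) ^ 2 * (ram (q + 1) h : ℝ)

/-- The polynomials `P_q`, `q ≥ 1`, are the densities of `d_r(n) e(b n / q)`, `(b, q) = 1`, with a power saving. -/
def Density (r : ℕ) (P : ℕ → ℝ[X]) : Prop := ∃ C A δ : ℝ, 0 < δ ∧ ∀ q b x : ℕ, 1 ≤ q → b.Coprime q → 1 ≤ x →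
  ‖∑ n ∈ Icc 1 x, (d r n : ℂ) * e ((b : ℝ) * n / q) - ((∑ n ∈ Icc 1 x, (P q).eval (Real.log n) : ℝ) : ℂ)‖ ≤
    C * (q : ℝ) ^ A * (x : ℝ) ^ (1 - δ)

/-- the series `∑ c_q(h) P_q(u) P_q(v)` over the `q ≥ 1` -/
noncomputable def G (P : ℕ → ℝ[X]) (h : ℤ) (u v : ℝ) : ℝ :=
  ∑' q : ℕ, (ram (q + 1) h : ℝ) * ((P (q + 1)).eval u * (P (q + 1)).eval v)

/-- the main term: the sum of `G (log n) (log (n + h))` over the `n` with `1 ≤ n ≤ x` and `n + h ≥ 1` -/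
noncomputable def main (P : ℕ → ℝ[X]) (x : ℕ) (h : ℤ) : ℝ :=
  ∑ n ∈ (Icc 1 x).filter (fun n : ℕ => 1 ≤ (n : ℤ) + h), G P h (Real.log n) (Real.log ((n : ℝ) + h))

/-- For ALL `x ≤ N`: `D_r(x; h)` is the main term up to `N ^ (1 - θ)` and, if `|h| ≤ N ^ (1 - η)`, it is
`x T_h(log x)` up to `N ^ (1 - η / 8)`. -/
def Asymp (r N : ℕ) (P : ℕ → ℝ[X]) (T : ℤ → ℝ[X]) (θ η : ℝ) (h : ℤ) : Prop := ∀ x : ℕ, x ≤ N →
  |D r x h - main P x h| ≤ (N : ℝ) ^ (1 - θ) ∧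
    ((|h| : ℝ) ≤ (N : ℝ) ^ (1 - η) → |D r x h - x * (T h).eval (Real.log x)| ≤ (N : ℝ) ^ (1 - η / 8))

open Classical in
/-- The energy of order `p` of the family of real numbers `g 1, ..., g x`: the number of the pairs `v`, `w` of
`p`-tuples of elements of `{1, ..., x}` such that `g (v 1) + ... + g (v p)` and `g (w 1) + ... + g (w p)` differ
by at most `1`. -/
noncomputable def energy (p x : ℕ) (g : ℕ → ℝ) : ℕ :=
  (((Fintype.piFinset fun _ : Fin p => Icc 1 x) ×ˢ (Fintype.piFinset fun _ : Fin p => Icc 1 x)).filter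
    (fun q => |∑ i, g (q.1 i) - ∑ i, g (q.2 i)| ≤ 1)).card

open Classical in
/-- For all `m ≤ x` with at most `x N ^ (-θ)` exceptions the asymptotic formulas hold for ALL integers `h ≠ 0` with
`|h - g m| ≤ N ^ δ`. -/
def Windows (r N : ℕ) (P : ℕ → ℝ[X]) (T : ℤ → ℝ[X]) (δ θ η : ℝ) (x : ℕ) (g : ℕ → ℝ) : Prop :=
  (((Icc 1 x).filter (fun m => ∃ h : ℤ, h ≠ 0 ∧ |(h : ℝ) - g m| ≤ (N : ℝ) ^ δ ∧ ¬ Asymp r N P T θ η h)).card : ℝ) ≤
    (N : ℝ) ^ (-θ) * x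

/-- The sequence `f`, of growth `x ^ c`, has the property at all large scales: there are `θ, δ > 0` such that the
asymptotic formulas hold in almost all windows of radius `N ^ δ` around the `β + f m`, `m ≤ x`, for all
`x` with `N ^ (1 - δ) ≤ x ^ c ≤ B N` and all real `β` with `|β| ≤ B N`. -/
def Sequence (r B : ℕ) (P : ℕ → ℝ[X]) (T : ℤ → ℝ[X]) (f : ℕ → ℝ) (c : ℝ) : Prop :=
  ∃ θ δ : ℝ, 0 < θ ∧ 0 < δ ∧ ∀ η : ℝ, 0 < η → η ≤ θ → ∃ N₀ : ℕ, ∀ N : ℕ, N₀ ≤ N → ∀ x : ℕ,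
    (x : ℝ) ^ c ≤ B * N → (N : ℝ) ^ (1 - δ) ≤ (x : ℝ) ^ c → ∀ β : ℝ, |β| ≤ B * N →
    Windows r N P T δ θ η x (fun m => β + f m)

/-- the statement about families of integers, from the starting files -/
def Fam (r : ℕ) (P : ℕ → ℝ[X]) (T : ℤ → ℝ[X]) : Prop :=
  ∀ p B : ℕ, ∃ θ : ℝ, 0 < θ ∧ ∀ η : ℝ, 0 < η → η ≤ θ → ∃ N₀ : ℕ, ∀ N : ℕ, N₀ ≤ N → ∀ (ι : Type) [Fintype ι] (v : ι → ℤ),
      (∀ i, |v i| ≤ B * N) →
      (Pool.Agent.TH935.GF.En p v : ℝ) * N ≤ (N : ℝ) ^ θ * (Fintype.card ι : ℝ) ^ (2 * p) →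
      ∀ S : Finset ι, (∀ i ∈ S, v i ≠ 0 ∧ ¬ Asymp r N P T θ η (v i)) → (S.card : ℝ) ≤ (N : ℝ) ^ (-θ) * Fintype.card ι

lemma windows_of {r : ℕ} {P : ℕ → ℝ[X]} {T : ℤ → ℝ[X]} (hF : Fam r P T) (p B : ℕ) :
    ∃ θ θ' : ℝ, 0 < θ ∧ 0 < θ' ∧ θ' ≤ 1 ∧ ∀ η : ℝ, 0 < η → η ≤ θ → ∃ N₀ : ℕ, ∀ N : ℕ, N₀ ≤ N →
      ∀ (x : ℕ) (g : ℕ → ℝ) (δ : ℝ), Pool.Agent.Q56.TF.NearP δ θ' p B N x g → Windows r N P T δ θ η x g := by
  classical
  obtain ⟨θ, hθ, h1⟩ := hF p B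
  refine ⟨θ, min θ 1, hθ, by positivity, min_le_right _ _, fun η hη hηθ => ?_⟩
  obtain ⟨N₀, h2⟩ := h1 η hη hηθ
  refine ⟨N₀ + 1, fun N hN x g δ hnear => ?_⟩
  have hN1 : (1 : ℝ) ≤ N := by exact_mod_cast (by omega : 1 ≤ N)
  unfold Windows
  refine Pool.Agent.Q56.TF.nearP_types hnear (Q := fun h => h ≠ 0 ∧ ¬ Asymp r N P T θ η h) ?_ _ (filter_subset _ _) ?_
  · intro ι _ v hv hE S hS
    refine h2 N (by omega) ι v hv (hE.trans ?_) S hS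
    apply mul_le_mul_of_nonneg_right _ (by positivity)
    exact Real.rpow_le_rpow_of_exponent_le hN1 (min_le_left _ _)
  · intro m hm
    obtain ⟨_, h, h0, h3, h4⟩ := mem_filter.1 hm
    exact ⟨h, h3, h0, h4⟩

lemma sequence_of {r : ℕ} {P : ℕ → ℝ[X]} {T : ℤ → ℝ[X]} (hF : Fam r P T) {f : ℕ → ℝ} {c : ℝ}
    (h : Pool.Agent.Q56.TF.Base f c) (hc : 1 ≤ c) (B : ℕ) : Sequence r B P T f c := by
  obtain ⟨p, B', h1⟩ := Pool.Agent.Q56.TF.nearP_base h hc B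
  obtain ⟨θ, θ', hθ, hθ', hθ1, h2⟩ := windows_of hF p B'
  obtain ⟨N₁, h3⟩ := h1 θ' hθ' hθ1
  refine ⟨θ, θ' / 4, hθ, by positivity, fun η hη hηθ => ?_⟩
  obtain ⟨N₀, h4⟩ := h2 η hη hηθ
  exact ⟨N₀ + N₁, fun N hN x hx1 hx2 β hβ =>
    h4 N (by omega) x _ (θ' / 4) (h3 N (by omega) x hx1 hx2 β hβ)⟩

/-- Let `r ≥ 2`. There are polynomials `P_q` (`q ≥ 1`) and `T_h` (`h ≠ 0`) with the following properties.

* `P_q` is the density of `d_r(n) e(b n / q)`, `(b, q) = 1`, with a power saving; it has degree `r - 1` and leading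
  coefficient `κ_{r - 1}(q) / (r - 1)!`. For `h ≠ 0` the series `G_h(u, v) = ∑ c_q(h) P_q(u) P_q(v)` converges
  absolutely, `T_h(u) + T_h'(u) = G_h(u, u)`, and `T_h` has degree `2 r - 2` and leading coefficient
  `𝔖_r(h) / ((r - 1)!) ^ 2`.
* For all `p` and `B` there are `θ, δ > 0` such that for every `0 < η ≤ θ` and every large `N`: for EVERY family of
  real numbers `g 1, ..., g x` in `[-B N, B N]` whose energy of order `p` is at most `N ^ δ x ^ (2 p) / N`, for all `m ≤ x`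
  with at most `x N ^ (-θ)` exceptions, ALL integers `h ≠ 0` with `|h - g m| ≤ N ^ δ` satisfy for ALL `y ≤ N`:
  `D_r(y; h) = ∑ G_h(log n, log(n + h)) + O(N ^ (1 - θ))` (the sum over `n ≤ y` with `n + h ≥ 1`) and, if
  `|h| ≤ N ^ (1 - η)`, `D_r(y; h) = y T_h(log y) + O(N ^ (1 - η / 8))`, with implied constants `1`.
* This holds for `g m = β + κ₀ f m`, `m ≤ x`, where `f` is a fixed nonconstant polynomial with integer coefficients, of
  degree `k`, `κ₀ ≠ 0` is a fixed real number, `|β| ≤ B N` and `N ^ (1 - δ) ≤ x ^ k ≤ B N`.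
* This holds for `g m = β + ∑ w_y m ^ y` (a sum over a finite set of real exponents `y`), if the largest
  exponent `c` is greater than `1` and not an integer, `w_c ≠ 0`, `|β| ≤ B N` and `N ^ (1 - δ) ≤ x ^ c ≤ B N`; for
  instance for `g m = β + m ^ c`. -/
theorem result (r : ℕ) (hr : 2 ≤ r) : ∃ (P : ℕ → ℝ[X]) (T : ℤ → ℝ[X]),
    (Density r P ∧ (∀ q, 1 ≤ q → (P q).natDegree = r - 1 ∧ (P q).leadingCoeff = κ (r - 1) q / ((r - 1).factorial : ℝ))) ∧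
    (∀ h : ℤ, h ≠ 0 → (∀ u v : ℝ, Summable (fun q : ℕ => (ram (q + 1) h : ℝ) * ((P (q + 1)).eval u * (P (q + 1)).eval v))) ∧
      (∀ u : ℝ, (T h).eval u + (derivative (T h)).eval u = G P h u u) ∧
      (T h).natDegree = 2 * r - 2 ∧ (T h).leadingCoeff = 𝔖 r h / ((r - 1).factorial : ℝ) ^ 2) ∧
    (∀ p B : ℕ, ∃ θ δ : ℝ, 0 < θ ∧ 0 < δ ∧ ∀ η : ℝ, 0 < η → η ≤ θ → ∃ N₀ : ℕ, ∀ N : ℕ, N₀ ≤ N →
      ∀ (x : ℕ) (g : ℕ → ℝ), (∀ m ∈ Icc 1 x, |g m| ≤ B * N) →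
      (energy p x g : ℝ) * N ≤ (N : ℝ) ^ δ * (x : ℝ) ^ (2 * p) → Windows r N P T δ θ η x g) ∧
    (∀ f : ℤ[X], 1 ≤ f.natDegree → ∀ κ₀ : ℝ, κ₀ ≠ 0 → ∀ B : ℕ,
      Sequence r B P T (fun m => κ₀ * ((f.eval (m : ℤ) : ℤ) : ℝ)) f.natDegree) ∧
    (∀ (F : Finset ℝ) (w : ℝ → ℝ) (c : ℝ), c ∈ F → (∀ y ∈ F, y ≤ c) → w c ≠ 0 → 1 < c → (∀ k : ℕ, c ≠ k) → ∀ B : ℕ,
      Sequence r B P T (fun m => ∑ y ∈ F, w y * (m : ℝ) ^ y) c) := by
  classical
  obtain ⟨P, T, h0, h1, h2, -⟩ := Pool.Agent.Results.MP_122e00_nt.PowerSavingShifts.result r hr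
  have hF : Fam r P T := by
    intro p B
    obtain ⟨θ, hθ, h3⟩ := h2 p B
    refine ⟨θ, hθ, fun η hη hηθ => ?_⟩
    obtain ⟨N₀, h4⟩ := h3 η hη hηθ
    refine ⟨N₀, fun N hN ι _ v hv hE S hS => le_trans ?_ (h4 N hN ι v hv hE)⟩
    apply Nat.cast_le.2
    apply card_le_card
    intro i hi
    rw [mem_filter]
    exact ⟨mem_univ _, (hS i hi).1, (hS i hi).2⟩
  refine ⟨P, T, ⟨h0.1, h0.2.1⟩, h1, fun p B => ?_, fun f hd κ₀ hκ B => ?_, fun F w c hcF hmax hwc hc hcn B => ?_⟩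
  · obtain ⟨θ, θ', hθ, hθ', hθ1, h5⟩ := windows_of hF p (B + 1)
    refine ⟨θ, θ' / 3, hθ, by positivity, fun η hη hηθ => ?_⟩
    obtain ⟨N₀, h6⟩ := h5 η hη hηθ
    obtain ⟨N₁, h7⟩ := Pool.Agent.Q56.TF.nearP_gen (θ' / 3) (θ' / 3) θ' (by positivity) (by linarith) (by linarith) p B
    exact ⟨N₀ + N₁, fun N hN x g hg hE => h6 N (by omega) x g _ (h7 N (by omega) x g hg hE)⟩
  · exact sequence_of hF ((Pool.Agent.Q56.TF.base_poly f hd).dil hκ) (by exact_mod_cast hd) B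
  · exact sequence_of hF (Pool.Agent.Q56.TF.base_gp F w c hcF hmax hwc hc hcn) hc.le B

end Pool.Agent.Results.MP_122e00_nt.PowerWindows
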