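import Pool.Agent.Results.MP_122e00_nt.PowerSavingShifts
import Pool.Agent.Q331.DRS

/-!
# Correlations of the divisor functions, with a power saving, for ALL shifts in windows of power length around the multiples of almost every real number

Let `r ≥ 2` and let `P_q`, `T_h` be the polynomials of the conjectural main terms.
* For every `ϑ < 1` and all real `y ∈ [N ^ (1 - ϑ), 2 N ^ (1 - ϑ)]` outside a set of measure at most
  `N ^ (1 - ϑ - c)`: for all `k ≤ N ^ ϑ` with at most `N ^ (ϑ - c)` exceptions ALL integers `h` with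
  `||h| - k y| ≤ N ^ c` satisfy the asymptotic formulas for `D_r(x; h)`, for ALL `x ≤ M`, with a power saving. Here
  `M` is any number between `N` and `N ^ (1 + c)`.
* For almost every real `α > 0`, every sequence `b k ≥ k ^ (1 / c)` and all large `k` (no exceptions) ALL integers
  `h` with `||h| - α b k| ≤ (b k) ^ c` satisfy them, for all `x ≤ M k`, `(b k) ^ (1 + c / 2) ≤ M k ≤ (b k) ^ (1 + c)`.

From Mathlib: `volume`: the Lebesgue measure; `∀ᵐ α : ℝ`: for almost all real `α`; `∀ᶠ k in atTop`: for all large `k`.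
The bound for the number of the exceptional shifts is from the starting file `PowerSavingShifts`; the count of the
multiples of real numbers near a given set of integers is from the starting files (`Pool.Agent.H438R2.DL`) and from
`Pool.Agent.Q319.DR` (helper319).
-/

set_option autoImplicit false

namespace Pool.Agent.Results.MP_122e00_nt.ShiftsAtRealMultiples

open Finset Polynomial MeasureTheory Filter

/-- `d_r(n)`: the number of the ordered `r`-tuples of positive integers with product `n` (and `d_r(0) = 0`) -/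
def d (r n : ℕ) : ℕ := ((ArithmeticFunction.zeta : ArithmeticFunction ℕ) ^ r) n

/-- `D_r(x; h)`: the sum of `d_r(n) d_r(n + h)` over `1 ≤ n ≤ x`, with `d_r(m) = 0` for `m ≤ 0` -/
noncomputable def D (r x : ℕ) (h : ℤ) : ℝ := ∑ n ∈ Icc 1 x, (d r n : ℝ) * d r ((n : ℤ) + h).toNat

/-- `e(t) = exp(2 π i t)` -/
noncomputable def e (t : ℝ) : ℂ := Complex.exp (2 * Real.pi * Complex.I * t)

/-- The Ramanujan sum `c_q(h)`: the sum of `μ(q / g) g` over the common divisors `g` of `q` and `h`. -/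
def ram (q : ℕ) (h : ℤ) : ℤ := ∑ g ∈ q.divisors.filter (fun g : ℕ => (g : ℤ) ∣ h), ArithmeticFunction.moebius (q / g) * g

/-- `κ_s(q)`: the proportion of the `s`-tuples of residues `0 ≤ a < q` whose product is divisible by `q` -/
noncomputable def κ (s q : ℕ) : ℝ := (Nat.card {a : Fin s → Fin q // q ∣ ∏ i, (a i : ℕ)} : ℝ) / (q : ℝ) ^ s

/-- The singular series `𝔖_r(h)`: the sum of `κ_{r - 1}(q) ^ 2 c_q(h)` over the `q ≥ 1`. -/
noncomputable def 𝔖 (r : ℕ) (h : ℤ) : ℝ := ∑' q : ℕ, κ (r - 1) (q + 1) ^ 2 * (ram (q + 1) h : ℝ)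

/-- The polynomials `P_q`, `q ≥ 1`, are the densities of `d_r(n) e(b n / q)`, `(b, q) = 1`, with a power saving. -/
def Density (r : ℕ) (P : ℕ → ℝ[X]) : Prop := ∃ C A δ : ℝ, 0 < δ ∧ ∀ q b x : ℕ, 1 ≤ q → b.Coprime q → 1 ≤ x →
  ‖∑ n ∈ Icc 1 x, (d r n : ℂ) * e ((b : ℝ) * n / q) - ((∑ n ∈ Icc 1 x, (P q).eval (Real.log n) : ℝ) : ℂ)‖ ≤
    C * (q : ℝ) ^ A * (x : ℝ) ^ (1 - δ)

/-- the series `∑ c_q(h) P_q(u) P_q(v)` over the `q ≥ 1` -/
noncomputable def G (P : ℕ → ℝ[X]) (h : ℤ) (u v : ℝ) : ℝ :=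
  ∑' q : ℕ, (ram (q + 1) h : ℝ) * ((P (q + 1)).eval u * (P (q + 1)).eval v)

/-- the main term: the sum of `G (log n) (log (n + h))` over the `n` with `1 ≤ n ≤ x` and `n + h ≥ 1` -/
noncomputable def main (P : ℕ → ℝ[X]) (x : ℕ) (h : ℤ) : ℝ :=
  ∑ n ∈ (Icc 1 x).filter (fun n : ℕ => 1 ≤ (n : ℤ) + h), G P h (Real.log n) (Real.log ((n : ℝ) + h))

/-- For ALL `x ≤ M`: `D_r(x; h)` is the main term up to `M ^ (1 - θ)` and, if `|h| ≤ M ^ (1 - η)`, it is
`x T_h(log x)` up to `M ^ (1 - η / 8)`. -/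
def Asymp (r M : ℕ) (P : ℕ → ℝ[X]) (T : ℤ → ℝ[X]) (θ η : ℝ) (h : ℤ) : Prop := ∀ x : ℕ, x ≤ M →
  |D r x h - main P x h| ≤ (M : ℝ) ^ (1 - θ) ∧
    ((|h| : ℝ) ≤ (M : ℝ) ^ (1 - η) → |D r x h - x * (T h).eval (Real.log x)| ≤ (M : ℝ) ^ (1 - η / 8))

/-- both shifts `h = q` and `h = -q` satisfy the asymptotic formulas -/
def Good (r M : ℕ) (P : ℕ → ℝ[X]) (T : ℤ → ℝ[X]) (θ η : ℝ) (q : ℕ) : Prop :=
  Asymp r M P T θ η q ∧ Asymp r M P T θ η (-q)

open Classical in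
/-- The number of the `k` with `1 ≤ k ≤ K` for which not all natural numbers `q` at a distance of at most `w` from
`k y` have the property `Q`. -/
noncomputable def exceptions (K : ℝ) (y w : ℝ) (Q : ℕ → Prop) : ℕ :=
  ((Icc 1 ⌊K⌋₊).filter (fun k : ℕ => ∃ q : ℕ, |(q : ℝ) - k * y| ≤ w ∧ ¬ Q q)).card

open Pool.Agent.Results.MP_122e00_nt.PowerSavingShifts (energy)

/-- the theorem of the starting file for families of integers of size at most `4 N`, energy of order one -/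
def Fam (r : ℕ) (P : ℕ → ℝ[X]) (T : ℤ → ℝ[X]) (θ η : ℝ) (N₀ : ℕ) : Prop :=
  ∀ N : ℕ, N₀ ≤ N → ∀ (ι : Type) [Fintype ι] (v : ι → ℤ), (∀ i, |v i| ≤ 4 * N) →
    (energy 1 v : ℝ) * N ≤ (N : ℝ) ^ θ * (Fintype.card ι : ℝ) ^ (2 * 1) →
    ∀ S : Finset ι, (∀ i ∈ S, v i ≠ 0 ∧ ¬ Asymp r N P T θ η (v i)) → (S.card : ℝ) ≤ (N : ℝ) ^ (-θ) * Fintype.card ι

/-- the number of the exceptional shifts -/
lemma count {r : ℕ} {P : ℕ → ℝ[X]} {T : ℤ → ℝ[X]} {θ η : ℝ} (hθ : 0 < θ) {N₀ : ℕ} (hF : Fam r P T θ η N₀)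
    (M : ℕ) (hM : N₀ ≤ M) (hM2 : 2 ≤ M) (S : Finset ℤ)
    (hS : ∀ h ∈ S, h ≠ 0 ∧ |h| ≤ 4 * M ∧ ¬ Asymp r M P T θ η h) : (S.card : ℝ) ≤ (M : ℝ) ^ (1 - θ) := by
  classical
  by_contra hlt
  rw [not_le] at hlt
  have hM2R : (2 : ℝ) ≤ M := by exact_mod_cast hM2
  have hM0 : (0 : ℝ) < M := by linarith
  have hc0 : (0 : ℝ) < S.card := lt_trans (by positivity) hlt
  have hcard : Fintype.card {x // x ∈ S} = S.card := Fintype.card_coe S
  have hE : energy 1 (fun i : {x // x ∈ S} => (i : ℤ)) ≤ S.card := by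
    unfold energy
    rw [← hcard, ← Nat.card_eq_fintype_card]
    refine Nat.card_le_card_of_injective (fun q => q.1.1 0) ?_
    intro q q' hqq
    have h1 := q.2
    have h2 := q'.2
    rw [Fin.sum_univ_one, Fin.sum_univ_one] at h1 h2
    change ((q.1.1 0 : {x // x ∈ S}) : ℤ) = ((q.1.2 0 : {x // x ∈ S}) : ℤ) at h1
    change ((q'.1.1 0 : {x // x ∈ S}) : ℤ) = ((q'.1.2 0 : {x // x ∈ S}) : ℤ) at h2
    have h3 : q.1.1 0 = q'.1.1 0 := hqq
    have h4 : q.1.2 0 = q'.1.2 0 := by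
      apply Subtype.ext
      rw [← h1, ← h2, h3]
    apply Subtype.ext
    apply Prod.ext
    · funext i
      rw [Subsingleton.elim i 0]
      exact h3
    · funext i
      rw [Subsingleton.elim i 0]
      exact h4
  have h5 := hF M hM {x // x ∈ S} (fun i => (i : ℤ)) (fun i => (hS i i.2).2.1) (by
    rw [hcard]
    have h6 : (energy 1 (fun i : {x // x ∈ S} => (i : ℤ)) : ℝ) ≤ S.card := by exact_mod_cast hE
    have h7 : (M : ℝ) ≤ (M : ℝ) ^ θ * S.card := by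
      calc (M : ℝ) = (M : ℝ) ^ θ * (M : ℝ) ^ (1 - θ) := by
            rw [← Real.rpow_add hM0]
            simp
        _ ≤ (M : ℝ) ^ θ * S.card := mul_le_mul_of_nonneg_left hlt.le (by positivity)
    calc (energy 1 (fun i : {x // x ∈ S} => (i : ℤ)) : ℝ) * M ≤ S.card * ((M : ℝ) ^ θ * S.card) := by
          apply mul_le_mul h6 h7 hM0.le (by positivity)
      _ = (M : ℝ) ^ θ * (S.card : ℝ) ^ (2 * 1) := by ring)
    univ (fun i _ => ⟨(hS i i.2).1, (hS i i.2).2.2⟩)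
  rw [card_univ, hcard] at h5
  have h8 : (M : ℝ) ^ (-θ) < 1 := Real.rpow_lt_one_of_one_lt_of_neg (by linarith) (by linarith)
  nlinarith

open Classical in
/-- the number of the `q ≤ X` for which one of the shifts `q`, `-q` is exceptional -/
lemma count' {r : ℕ} {P : ℕ → ℝ[X]} {T : ℤ → ℝ[X]} {θ η : ℝ} (hθ : 0 < θ) {N₀ : ℕ} (hF : Fam r P T θ η N₀)
    (M : ℕ) (hM : N₀ ≤ M) (hM2 : 2 ≤ M) (X : ℕ) (hX : X ≤ 4 * M) :
    (((Icc 1 X).filter (fun q => ¬ Good r M P T θ η q)).card : ℝ) ≤ (M : ℝ) ^ (1 - θ) := by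
  set f : ℕ → ℤ := fun q => if Asymp r M P T θ η q then -(q : ℤ) else q with hf
  have hfa : ∀ q : ℕ, |f q| = q := by
    intro q
    rw [hf]
    by_cases h : Asymp r M P T θ η q
    · simp only [if_pos h, abs_neg, Nat.abs_cast]
    · simp only [if_neg h, Nat.abs_cast]
  have hinj : Function.Injective f := by
    intro q q' h
    have h1 := hfa q
    rw [h, hfa q'] at h1
    exact_mod_cast h1.symm
  rw [← card_image_of_injective _ hinj]
  apply count hθ hF M hM hM2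
  intro h hh
  obtain ⟨q, hq, rfl⟩ := mem_image.1 hh
  rw [mem_filter, mem_Icc] at hq
  refine ⟨?_, ?_, ?_⟩
  · intro h0
    have h1 := hfa q
    rw [h0, abs_zero] at h1
    have : q = 0 := by exact_mod_cast h1.symm
    omega
  · rw [hfa q]
    exact_mod_cast hq.1.2.trans hX
  · intro hA
    by_cases h : Asymp r M P T θ η q
    · have e1 : f q = -(q : ℤ) := by rw [hf]; simp only [if_pos h]
      rw [e1] at hA
      exact hq.2 ⟨h, hA⟩
    · have e1 : f q = q := by rw [hf]; simp only [if_neg h]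
      rw [e1] at hA
      exact h hA

/-- Let `r ≥ 2`. There are polynomials `P_q` (`q ≥ 1`) and `T_h` (`h ≠ 0`) with the following properties.

* `P_q` is the density of `d_r(n) e(b n / q)`, `(b, q) = 1`, with a power saving; it has degree `r - 1` and leading
  coefficient `κ_{r - 1}(q) / (r - 1)!`. For `h ≠ 0` the series `G_h(u, v) = ∑ c_q(h) P_q(u) P_q(v)` converges
  absolutely, `T_h(u) + T_h'(u) = G_h(u, u)`, and `T_h` has degree `2 r - 2` and leading coefficient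
  `𝔖_r(h) / ((r - 1)!) ^ 2`.
* There is `θ > 0` such that for every `0 < ϑ < 1` there is `c > 0` such that for every `0 < η ≤ θ`, every large `N`
  and every `M` with `N ≤ M ≤ N ^ (1 + c)` there is a set `E` of real numbers of measure at most `N ^ (1 - ϑ - c)`
  with the following property: for every real `y` with `N ^ (1 - ϑ) ≤ y ≤ 2 N ^ (1 - ϑ)` which does not belong to `E`
  and for all `k ≤ N ^ ϑ` with at most `N ^ (ϑ - c)` exceptions, ALL integers `h` with `||h| - k y| ≤ N ^ c` satisfy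
  for ALL `x ≤ M`: `D_r(x; h) = ∑ G_h(log n, log(n + h)) + O(M ^ (1 - θ))` (the sum over `n ≤ x` with `n + h ≥ 1`)
  and, if `|h| ≤ M ^ (1 - η)`, `D_r(x; h) = x T_h(log x) + O(M ^ (1 - η / 8))`, with implied constants `1`.
* For this `θ` there is `c > 0` such that for every `0 < η ≤ θ` and all sequences `b`, `M` of natural numbers with
  `b k ≥ k ^ (1 / c)` and `(b k) ^ (1 + c / 2) ≤ M k ≤ (b k) ^ (1 + c)` for all large `k`: for almost every real
  `α > 0` and for ALL large `k`, ALL integers `h` with `||h| - α b k| ≤ (b k) ^ c` satisfy these formulas for ALL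
  `x ≤ M k` (with `M k` in place of `M`). -/
theorem result (r : ℕ) (hr : 2 ≤ r) : ∃ (P : ℕ → ℝ[X]) (T : ℤ → ℝ[X]),
    (Density r P ∧ (∀ q, 1 ≤ q → (P q).natDegree = r - 1 ∧ (P q).leadingCoeff = κ (r - 1) q / ((r - 1).factorial : ℝ))) ∧
    (∀ h : ℤ, h ≠ 0 → (∀ u v : ℝ, Summable (fun q : ℕ => (ram (q + 1) h : ℝ) * ((P (q + 1)).eval u * (P (q + 1)).eval v))) ∧
      (∀ u : ℝ, (T h).eval u + (derivative (T h)).eval u = G P h u u) ∧
      (T h).natDegree = 2 * r - 2 ∧ (T h).leadingCoeff = 𝔖 r h / ((r - 1).factorial : ℝ) ^ 2) ∧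
    ∃ θ : ℝ, 0 < θ ∧
      (∀ ϑ : ℝ, 0 < ϑ → ϑ < 1 → ∃ c : ℝ, 0 < c ∧ ∀ η : ℝ, 0 < η → η ≤ θ → ∃ N₀ : ℕ, ∀ N M : ℕ, N₀ ≤ N → N ≤ M →
        (M : ℝ) ≤ (N : ℝ) ^ (1 + c) →
        ∃ E : Set ℝ, MeasurableSet E ∧ volume E ≤ ENNReal.ofReal ((N : ℝ) ^ (1 - ϑ - c)) ∧
          ∀ y : ℝ, (N : ℝ) ^ (1 - ϑ) ≤ y → y ≤ 2 * (N : ℝ) ^ (1 - ϑ) → y ∉ E →
            (exceptions ((N : ℝ) ^ ϑ) y ((N : ℝ) ^ c) (Good r M P T θ η) : ℝ) ≤ (N : ℝ) ^ (ϑ - c)) ∧
      (∃ c : ℝ, 0 < c ∧ ∀ η : ℝ, 0 < η → η ≤ θ → ∀ b M : ℕ → ℕ,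
        (∀ᶠ k : ℕ in atTop, (k : ℝ) ^ (1 / c) ≤ b k ∧ (b k : ℝ) ^ (1 + c / 2) ≤ M k ∧
          (M k : ℝ) ≤ (b k : ℝ) ^ (1 + c)) →
        ∀ᵐ α : ℝ, 0 < α → ∀ᶠ k : ℕ in atTop,
          ∀ q : ℕ, |(q : ℝ) - α * b k| ≤ (b k : ℝ) ^ c → Good r (M k) P T θ η q) := by
  classical
  obtain ⟨P, T, h0, h1, h2, -⟩ := Pool.Agent.Results.MP_122e00_nt.PowerSavingShifts.result r hr
  obtain ⟨θ, hθ, h3⟩ := h2 1 4
  have hFam : ∀ η : ℝ, 0 < η → η ≤ θ → ∃ N₀ : ℕ, Fam r P T θ η N₀ := by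
    intro η hη hηθ
    obtain ⟨N₀, h4⟩ := h3 η hη hηθ
    refine ⟨N₀, fun N hN ι _ v hv hE S hS => le_trans ?_ (h4 N hN ι v (by exact_mod_cast hv) hE)⟩
    apply Nat.cast_le.2
    apply card_le_card
    intro i hi
    rw [mem_filter]
    exact ⟨mem_univ _, (hS i hi).1, (hS i hi).2⟩
  have hexp : ∀ c : ℝ, 0 < c → c ≤ θ / 2 → (1 + c) * (1 - θ) ≤ 1 - θ / 2 := by
    intro c hc hcθ
    rcases le_total θ 1 with h | h
    · nlinarith
    · nlinarith
  refine ⟨P, T, ⟨h0.1, h0.2.1⟩, h1, θ, hθ, fun ϑ hϑ hϑ1 => ?_, ?_⟩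
  · obtain ⟨c, hc, hc1, hc2, hmain⟩ := Pool.Agent.Q331.DRS.mult ϑ hϑ hϑ1 (θ / 2) (by positivity)
    refine ⟨c, hc, fun η hη hηθ => ?_⟩
    obtain ⟨N₁, hF⟩ := hFam η hη hηθ
    obtain ⟨N₂, hN₂⟩ := hmain 1
    refine ⟨N₁ + N₂ + 2, fun N M hN hNM hMN => ?_⟩
    have hN1 : (1 : ℝ) ≤ N := by exact_mod_cast (by omega : 1 ≤ N)
    have hM0 : (0 : ℝ) < M := by exact_mod_cast (by omega : 0 < M)
    obtain ⟨E, hE1, hE2, hE3⟩ := hN₂ N (by omega) (fun q => ¬ Good r M P T θ η q) (by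
      refine le_trans (le_of_eq (by congr!)) ((count' hθ hF M (by omega) (by omega) (4 * N) (by omega)).trans ?_)
      rw [one_mul]
      rcases le_total θ 1 with h | h
      · calc (M : ℝ) ^ (1 - θ) ≤ ((N : ℝ) ^ (1 + c)) ^ (1 - θ) :=
              Real.rpow_le_rpow hM0.le hMN (by linarith)
          _ = (N : ℝ) ^ ((1 + c) * (1 - θ)) := by rw [← Real.rpow_mul (by linarith)]
          _ ≤ (N : ℝ) ^ (1 - θ / 2) := Real.rpow_le_rpow_of_exponent_le hN1 (hexp c hc hc2.le)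
      · have hNMr : (N : ℝ) ≤ M := by exact_mod_cast hNM
        calc (M : ℝ) ^ (1 - θ) ≤ (N : ℝ) ^ (1 - θ) :=
              Real.rpow_le_rpow_of_nonpos (by linarith) hNMr (by linarith)
          _ ≤ (N : ℝ) ^ (1 - θ / 2) := Real.rpow_le_rpow_of_exponent_le hN1 (by linarith))
    exact ⟨E, hE1, hE2, hE3⟩
  · obtain ⟨κ₀, hκ₀⟩ : ∃ κ₀ : ℝ, κ₀ = min (θ / 2) 1 := ⟨_, rfl⟩
    have hκ0 : 0 < κ₀ := by rw [hκ₀]; exact lt_min (by positivity) one_pos
    have hκ1 : κ₀ ≤ 1 := by rw [hκ₀]; exact min_le_right _ _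
    have hκθ : κ₀ ≤ θ / 2 := by rw [hκ₀]; exact min_le_left _ _
    refine ⟨κ₀ / 4, by positivity, fun η hη hηθ b M hbM => ?_⟩
    obtain ⟨N₁, hF⟩ := hFam η hη hηθ
    have tb : Tendsto (fun k : ℕ => ((b k : ℕ) : ℝ)) atTop atTop := by
      have t1 : Tendsto (fun k : ℕ => (k : ℝ) ^ (1 / (κ₀ / 4))) atTop atTop :=
        (tendsto_rpow_atTop (by positivity)).comp tendsto_natCast_atTop_atTop
      refine tendsto_atTop_mono' _ ?_ t1
      filter_upwards [hbM] with k hk using hk.1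
    refine Pool.Agent.Q331.DRS.dil (fun k q => ¬ Good r (M k) P T θ η q) κ₀ (κ₀ / 4) 3 hκ1 (by positivity)
      (by linarith) (by norm_num) b ?_ ?_ |>.mono ?_
    · filter_upwards [hbM] with k hk
      have e : (3 : ℝ) / (κ₀ - κ₀ / 4) = 1 / (κ₀ / 4) := by
        field_simp
        norm_num
      rw [e]
      exact hk.1
    · intro Dm
      refine ⟨1, zero_le_one, ?_⟩
      have t2 : Tendsto (fun k : ℕ => ((b k : ℕ) : ℝ) ^ (κ₀ / 4 / 2)) atTop atTop :=
        (tendsto_rpow_atTop (by positivity)).comp tb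
      filter_upwards [hbM, tb.eventually_ge_atTop ((N₁ : ℝ) + 2), t2.eventually_ge_atTop ((Dm : ℝ) + 1)] with k hk hk2 hk3
      obtain ⟨-, hk4, hk5⟩ := hk
      have hN1 : (1 : ℝ) ≤ b k := by
        have : (0 : ℝ) ≤ N₁ := Nat.cast_nonneg _
        linarith
      have hb0 : (0 : ℝ) < b k := by linarith
      have hbM1 : (b k : ℝ) ≤ M k := by
        refine le_trans ?_ hk4
        calc (b k : ℝ) = (b k : ℝ) ^ (1 : ℝ) := (Real.rpow_one _).symm
          _ ≤ _ := Real.rpow_le_rpow_of_exponent_le hN1 (by linarith)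
      have hM0 : (0 : ℝ) < M k := by linarith
      have hMN : N₁ + 2 ≤ M k := by
        have : ((N₁ + 2 : ℕ) : ℝ) ≤ M k := by push_cast; linarith
        exact_mod_cast this
      have hX : (Dm + 1) * b k ≤ 4 * M k := by
        have h5 : (((Dm + 1) * b k : ℕ) : ℝ) ≤ ((4 * M k : ℕ) : ℝ) := by
          push_cast
          calc ((Dm : ℝ) + 1) * b k ≤ (b k : ℝ) ^ (κ₀ / 4 / 2) * b k := mul_le_mul_of_nonneg_right hk3 hb0.le
            _ = (b k : ℝ) ^ (1 + κ₀ / 4 / 2) := by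
                rw [add_comm, Real.rpow_add hb0, Real.rpow_one]
            _ ≤ M k := hk4
            _ ≤ 4 * M k := by linarith
        exact_mod_cast h5
      refine le_trans (le_of_eq (by congr!)) ((count' hθ hF (M k) (by omega) (by omega) _ hX).trans ?_)
      rw [one_mul]
      rcases le_total θ 1 with h | h
      · calc (M k : ℝ) ^ (1 - θ) ≤ ((b k : ℝ) ^ (1 + κ₀ / 4)) ^ (1 - θ) :=
              Real.rpow_le_rpow hM0.le hk5 (by linarith)
          _ = (b k : ℝ) ^ ((1 + κ₀ / 4) * (1 - θ)) := by rw [← Real.rpow_mul (by linarith)]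
          _ ≤ (b k : ℝ) ^ (1 - κ₀) := Real.rpow_le_rpow_of_exponent_le hN1
              ((hexp (κ₀ / 4) (by positivity) (by linarith)).trans (by linarith))
      · calc (M k : ℝ) ^ (1 - θ) ≤ (b k : ℝ) ^ (1 - θ) :=
              Real.rpow_le_rpow_of_nonpos (by linarith) hbM1 (by linarith)
          _ ≤ (b k : ℝ) ^ (1 - κ₀) := Real.rpow_le_rpow_of_exponent_le hN1 (by linarith)
    · intro α hα hα0
      filter_upwards [hα hα0] with k hk q hq
      exact not_not.1 (hk q hq)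

end Pool.Agent.Results.MP_122e00_nt.ShiftsAtRealMultiples
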